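import Pool.Agent.R475.ENH.Ex

/-!
# Extent versus open-Hausdorff cover number for everywhere non-Hausdorff manifolds

There is an everywhere non-Hausdorff manifold `M` with `E(M) > OH(M)` if and only if
`cov(B) < 𝔠`.
-/

set_option autoImplicit false

namespace Pool.Agent.Results.MP_434b1a_gt.GapIffCovBelowContinuum

open Set Topology Cardinal Pool.Agent.R475.ENH

/-- Homogeneous spaces. -/
def Homogeneous (X : Type) [TopologicalSpace X] : Prop := ∀ x y : X, ∃ h : X ≃ₜ X, h x = y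

lemma enh_of_homogeneous {X : Type} [TopologicalSpace X] (hX : Homogeneous X)
    (hT : ¬ T2Space X) : EverywhereNonHausdorff X := by
  obtain ⟨x, hx⟩ : ∃ x : X, (NH x).Nonempty := by
    by_contra hc
    push Not at hc
    apply hT
    refine ⟨fun x y hxy => ?_⟩
    by_contra hs
    have h1 : y ∈ NH x := by
      refine ⟨fun h => hxy h.symm, fun U V hU hV hxU hyV => ?_⟩
      by_contra hUV
      exact hs ⟨U, V, hU, hV, hxU, hyV, disjoint_iff_inter_eq_empty.2
        (not_nonempty_iff_eq_empty.1 hUV)⟩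
    have h2 := hc x
    rw [Set.eq_empty_iff_forall_notMem] at h2
    exact h2 y h1
  intro z
  obtain ⟨h, rfl⟩ := hX x z
  obtain ⟨y, hyx, hy⟩ := hx
  refine ⟨h y, fun he => hyx (h.injective he), fun U V hU hV hxU hyV => ?_⟩
  obtain ⟨w, hw1, hw2⟩ := hy (h ⁻¹' U) (h ⁻¹' V) (hU.preimage h.continuous)
    (hV.preimage h.continuous) hxU hyV
  exact ⟨h w, hw1, hw2⟩

lemma OH_le_E {n : ℕ} {X : Type} [TopologicalSpace X] (hM : IsManifoldDim n X) :
    OHNumber X ≤ ENumber n X := by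
  have h : {c : Cardinal.{0} | ∃ 𝒰 : Set (Set X), #𝒰 = c ∧
      (∀ U ∈ 𝒰, IsOpen U ∧ Nonempty (U ≃ₜ (Fin n → ℝ))) ∧ ⋃₀ 𝒰 = Set.univ}.Nonempty := by
    choose U hU hx e using hM.locEuclidean
    refine ⟨_, range U, rfl, ?_, ?_⟩
    · rintro _ ⟨x, rfl⟩
      exact ⟨hU x, e x⟩
    · rw [eq_univ_iff_forall]
      intro x
      exact ⟨U x, ⟨x, rfl⟩, hx x⟩
  refine le_csInf h ?_
  rintro _ ⟨𝒰, rfl, h1, h2⟩
  refine csInf_le' ⟨𝒰, rfl, fun U hU => ?_, h2⟩
  obtain ⟨h3, ⟨e⟩⟩ := h1 U hU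
  exact ⟨h3, e.isEmbedding.t2Space⟩

/-- **Main theorem.**
(1) There is an everywhere non-Hausdorff manifold `M` (of some dimension `n`) with
`E(M) > OH(M)` if and only if `cov(B) < 𝔠`.
(2) If `cov(B) < 𝔠`, then there is such a manifold of dimension 2.
(3) If `cov(B)` is not less than `𝔠`, then `E(M) = OH(M)` for all homogeneous non-Hausdorff
manifolds `M`. -/
theorem result :
    ((∃ (n : ℕ) (X : Type) (_ : TopologicalSpace X), IsManifoldDim n X ∧
        EverywhereNonHausdorff X ∧ OHNumber X < ENumber n X) ↔ covB < 𝔠) ∧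
    (covB < 𝔠 → ∃ (X : Type) (_ : TopologicalSpace X), IsManifoldDim 2 X ∧
        EverywhereNonHausdorff X ∧ OHNumber X < ENumber 2 X) ∧
    (¬ covB < 𝔠 → ∀ (n : ℕ) (X : Type) [TopologicalSpace X], IsManifoldDim n X →
        Homogeneous X → ¬ T2Space X → ENumber n X = OHNumber X) := by
  refine ⟨⟨?_, fun h => ⟨2, exists_gap h⟩⟩, exists_gap, ?_⟩
  · rintro ⟨n, X, _, h1, h2, h3⟩
    exact covB_lt_of_gap h1 h2 h3
  · intro hcov n X _ h1 h2 h3
    refine le_antisymm ?_ (OH_le_E h1)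
    by_contra hlt
    push Not at hlt
    exact hcov (covB_lt_of_gap h1 (enh_of_homogeneous h2 h3) hlt)

end Pool.Agent.Results.MP_434b1a_gt.GapIffCovBelowContinuum
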